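import Mathlib

/-!
# Three-point inequality from the scaling property

If `φ` is monotone and `φ (c b) - φ (c a) ≤ c ^ d (φ b - φ a)` for `c ≥ 1`, then `φ` is a concave
function of the `d`-th power of its argument; we prove the existence of a supporting line at `1`.
-/

set_option autoImplicit false

namespace Pool.Agent.KneserThree

open Set Filter Topology

/-- The scaling property. -/
structure Sc (d : ℕ) (φ : ℝ → ℝ) : Prop where
  pos : d ≠ 0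
  mono : ∀ a b, 0 ≤ a → a ≤ b → φ a ≤ φ b
  scale : ∀ c a b, 1 ≤ c → 0 ≤ a → a ≤ b → φ (c * b) - φ (c * a) ≤ c ^ d * (φ b - φ a)

variable {d : ℕ} {φ : ℝ → ℝ}

theorem up (h : Sc d φ) {q : ℝ} (hq : 1 < q) (j : ℕ) :
    (φ (q ^ j) - φ 1) * (q ^ d - 1) ≤ (φ q - φ 1) * ((q ^ j) ^ d - 1) := by
  have hqd : 1 < q ^ d := one_lt_pow₀ hq h.pos
  induction j with
  | zero => simp
  | succ j ih =>
    have hj : 1 ≤ q ^ j := one_le_pow₀ hq.le
    have h1 := h.scale (q ^ j) 1 q hj zero_le_one hq.le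
    rw [mul_one, ← pow_succ] at h1
    have h2 := mul_le_mul_of_nonneg_right h1 (by linarith : 0 ≤ q ^ d - 1)
    have h3 : (q ^ (j + 1)) ^ d = (q ^ j) ^ d * q ^ d := by ring
    rw [h3]
    nlinarith

theorem down (h : Sc d φ) {q : ℝ} (hq : 1 < q) (i : ℕ) :
    (φ q - φ 1) * (1 - ((q ^ i)⁻¹) ^ d) ≤ (φ 1 - φ ((q ^ i)⁻¹)) * (q ^ d - 1) := by
  have hqd : 1 < q ^ d := one_lt_pow₀ hq h.pos
  have hq0 : 0 < q := by linarith
  induction i with
  | zero => simp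
  | succ i ih =>
    have hi : 1 ≤ q ^ (i + 1) := one_le_pow₀ hq.le
    have hi0 : 0 < q ^ i := by positivity
    have hle : (q ^ (i + 1))⁻¹ ≤ (q ^ i)⁻¹ := by
      apply inv_anti₀ hi0
      exact pow_le_pow_right₀ hq.le (by omega)
    have h1 := h.scale (q ^ (i + 1)) ((q ^ (i + 1))⁻¹) ((q ^ i)⁻¹) hi (by positivity) hle
    have e1 : q ^ (i + 1) * (q ^ i)⁻¹ = q := by
      rw [pow_succ]; field_simp
    have e2 : q ^ (i + 1) * (q ^ (i + 1))⁻¹ = 1 := mul_inv_cancel₀ (by positivity)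
    rw [e1, e2] at h1
    set A := φ q - φ 1 with hA
    set x := (q ^ (i + 1))⁻¹ with hx
    have hx0 : 0 < x := by positivity
    have e3 : (q ^ i)⁻¹ = x * q := by
      rw [hx, pow_succ]; field_simp
    have e4 : q ^ (i + 1) * x = 1 := e2
    have h2 : x ^ d * A ≤ φ ((q ^ i)⁻¹) - φ x := by
      have h3 := mul_le_mul_of_nonneg_left h1 (by positivity : 0 ≤ x ^ d)
      have e5 : x ^ d * ((q ^ (i + 1)) ^ d * (φ ((q ^ i)⁻¹) - φ x)) =
          (q ^ (i + 1) * x) ^ d * (φ ((q ^ i)⁻¹) - φ x) := by ring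
      rw [e5, e4, one_pow, one_mul] at h3
      exact h3
    have h4 := mul_le_mul_of_nonneg_right h2 (by linarith : 0 ≤ q ^ d - 1)
    have e6 : ((q ^ i)⁻¹) ^ d = x ^ d * q ^ d := by rw [e3]; ring
    rw [e6] at ih
    nlinarith

theorem three_q (h : Sc d φ) {q a c : ℝ} (hq : 1 < q) (ha : 0 < a) (ha1 : a < 1) (hc : 1 < c)
    (hqa : q * a ≤ 1) :
    (φ c - φ 1) * (1 - (q * a) ^ d) ≤ (φ 1 - φ a) * ((q * c) ^ d - 1) := by
  have hqd : 1 < q ^ d := one_lt_pow₀ hq h.pos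
  have hq0 : 0 < q := by linarith
  obtain ⟨j, hj1, hj2⟩ := exists_nat_pow_near hc.le hq
  obtain ⟨i, hi1, hi2⟩ := exists_nat_pow_near (one_le_inv_iff₀.mpr ⟨ha, ha1.le⟩) hq
  set A := φ q - φ 1 with hA
  have hA0 : 0 ≤ A := sub_nonneg.mpr (h.mono 1 q zero_le_one hq.le)
  -- right side
  have h1 : (φ c - φ 1) * (q ^ d - 1) ≤ A * ((q * c) ^ d - 1) := by
    have h2 := up h hq (j + 1)
    have h3 : φ c ≤ φ (q ^ (j + 1)) := h.mono _ _ (by linarith) hj2.le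
    have h4 : (q ^ (j + 1)) ^ d ≤ (q * c) ^ d := by
      apply pow_le_pow_left₀ (by positivity)
      rw [pow_succ, mul_comm]
      exact mul_le_mul_of_nonneg_left hj1 hq0.le
    calc (φ c - φ 1) * (q ^ d - 1) ≤ (φ (q ^ (j + 1)) - φ 1) * (q ^ d - 1) := by
          apply mul_le_mul_of_nonneg_right (by linarith) (by linarith)
      _ ≤ A * ((q ^ (j + 1)) ^ d - 1) := h2
      _ ≤ A * ((q * c) ^ d - 1) := mul_le_mul_of_nonneg_left (by linarith) hA0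
  have h5 : A * (1 - (q * a) ^ d) ≤ (φ 1 - φ a) * (q ^ d - 1) := by
    have h2 := down h hq i
    have hi0 : 0 < q ^ i := by positivity
    have h3 : a ≤ (q ^ i)⁻¹ := by
      rw [le_inv_comm₀ ha hi0]; exact hi1
    have h4 : (q ^ i)⁻¹ ≤ q * a := by
      have h6 : a⁻¹ < q ^ i * q := by rw [← pow_succ]; exact hi2
      rw [inv_le_iff_one_le_mul₀ hi0]
      have h7 : a * a⁻¹ < a * (q ^ i * q) := mul_lt_mul_of_pos_left h6 ha
      rw [mul_inv_cancel₀ ha.ne'] at h7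
      nlinarith
    have h6 : φ a ≤ φ ((q ^ i)⁻¹) := h.mono _ _ ha.le h3
    have h7 : ((q ^ i)⁻¹) ^ d ≤ (q * a) ^ d := pow_le_pow_left₀ (by positivity) h4 d
    calc A * (1 - (q * a) ^ d) ≤ A * (1 - ((q ^ i)⁻¹) ^ d) :=
          mul_le_mul_of_nonneg_left (by linarith) hA0
      _ ≤ (φ 1 - φ ((q ^ i)⁻¹)) * (q ^ d - 1) := h2
      _ ≤ (φ 1 - φ a) * (q ^ d - 1) := mul_le_mul_of_nonneg_right (by linarith) (by linarith)
  have hu : 0 ≤ 1 - (q * a) ^ d := by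
    have : (q * a) ^ d ≤ 1 := pow_le_one₀ (by positivity) hqa
    linarith
  have hv : 0 ≤ (q * c) ^ d - 1 := by
    have : 1 ≤ (q * c) ^ d := one_le_pow₀ (by nlinarith)
    linarith
  have h8 := mul_le_mul_of_nonneg_right h1 hu
  have h9 := mul_le_mul_of_nonneg_right h5 hv
  have h10 : (φ c - φ 1) * (1 - (q * a) ^ d) * (q ^ d - 1) ≤
      (φ 1 - φ a) * ((q * c) ^ d - 1) * (q ^ d - 1) := by nlinarith
  exact le_of_mul_le_mul_right h10 (by linarith)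

theorem three (h : Sc d φ) {a c : ℝ} (ha : 0 < a) (ha1 : a < 1) (hc : 1 < c) :
    (φ c - φ 1) * (1 - a ^ d) ≤ (φ 1 - φ a) * (c ^ d - 1) := by
  have t1 : Tendsto (fun q : ℝ => (φ c - φ 1) * (1 - (q * a) ^ d)) (𝓝[>] 1)
      (𝓝 ((φ c - φ 1) * (1 - a ^ d))) := by
    have : Continuous fun q : ℝ => (φ c - φ 1) * (1 - (q * a) ^ d) := by fun_prop
    have h2 := (this.tendsto 1).mono_left (nhdsWithin_le_nhds (s := Ioi 1))
    simpa using h2
  have t2 : Tendsto (fun q : ℝ => (φ 1 - φ a) * ((q * c) ^ d - 1)) (𝓝[>] 1)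
      (𝓝 ((φ 1 - φ a) * (c ^ d - 1))) := by
    have : Continuous fun q : ℝ => (φ 1 - φ a) * ((q * c) ^ d - 1) := by fun_prop
    have h2 := (this.tendsto 1).mono_left (nhdsWithin_le_nhds (s := Ioi 1))
    simpa using h2
  refine le_of_tendsto_of_tendsto t1 t2 ?_
  have h3 : ∀ᶠ q : ℝ in 𝓝[>] 1, q < a⁻¹ :=
    (nhdsWithin_le_nhds (s := Ioi 1)) (Iio_mem_nhds (one_lt_inv_iff₀.mpr ⟨ha, ha1⟩))
  filter_upwards [h3, self_mem_nhdsWithin] with q hq hq1
  refine three_q h hq1 ha ha1 hc ?_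
  have h4 : q * a < a⁻¹ * a := mul_lt_mul_of_pos_right hq ha
  rw [inv_mul_cancel₀ ha.ne'] at h4
  exact h4.le

/-- A supporting line at `1`. -/
theorem support (h : Sc d φ) : ∃ m : ℝ, 0 ≤ m ∧ ∀ x, 0 ≤ x → φ x ≤ φ 1 + m * (x ^ d - 1) := by
  set T : Set ℝ := (fun c => (φ c - φ 1) / (c ^ d - 1)) '' Ioi 1 with hT
  have hpos : ∀ c : ℝ, 1 < c → 0 < c ^ d - 1 := fun c hc => by
    have : 1 < c ^ d := one_lt_pow₀ hc h.pos
    linarith
  have hneg : ∀ a : ℝ, 0 ≤ a → a < 1 → 0 < 1 - a ^ d := fun a ha0 ha => by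
    have : a ^ d < 1 := pow_lt_one₀ ha0 ha h.pos
    linarith
  have hb : ∀ a, 0 < a → a < 1 → ∀ y ∈ T, y ≤ (φ 1 - φ a) / (1 - a ^ d) := by
    rintro a ha ha1 _ ⟨c, hc, rfl⟩
    rw [div_le_div_iff₀ (hpos c hc) (hneg a ha.le ha1)]
    exact three h ha ha1 hc
  have hne : T.Nonempty := ⟨_, 2, by norm_num, rfl⟩
  have hbd : BddAbove T := ⟨_, hb (1 / 2) (by norm_num) (by norm_num)⟩
  have hm0 : 0 ≤ sSup T := by
    obtain ⟨y, hy⟩ := hne
    have hy0 : 0 ≤ y := by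
      obtain ⟨c, hc, rfl⟩ := hy
      exact div_nonneg (sub_nonneg.mpr (h.mono 1 c zero_le_one (le_of_lt hc))) (hpos c hc).le
    exact hy0.trans (le_csSup hbd hy)
  have hlow : ∀ a, 0 < a → a < 1 → sSup T * (1 - a ^ d) ≤ φ 1 - φ a := by
    intro a ha ha1
    have h1 := csSup_le hne (hb a ha ha1)
    rwa [le_div_iff₀ (hneg a ha.le ha1)] at h1
  refine ⟨sSup T, hm0, fun x hx => ?_⟩
  rcases lt_trichotomy x 1 with h1 | h1 | h1
  · rcases hx.eq_or_lt with h0 | h0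
    · -- x = 0
      rw [← h0]
      have t1 : Tendsto (fun a : ℝ => φ 1 + sSup T * (a ^ d - 1)) (𝓝[>] 0)
          (𝓝 (φ 1 + sSup T * (0 ^ d - 1))) := by
        have : Continuous fun a : ℝ => φ 1 + sSup T * (a ^ d - 1) := by fun_prop
        exact (this.tendsto 0).mono_left nhdsWithin_le_nhds
      refine ge_of_tendsto t1 ?_
      have h3 : ∀ᶠ a : ℝ in 𝓝[>] 0, a < 1 :=
        (nhdsWithin_le_nhds (s := Ioi 0)) (Iio_mem_nhds zero_lt_one)
      filter_upwards [h3, self_mem_nhdsWithin] with a ha1 ha0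
      have h4 := hlow a ha0 ha1
      have h5 : φ 0 ≤ φ a := h.mono 0 a le_rfl (le_of_lt ha0)
      linarith
    · have h4 := hlow x h0 h1
      linarith
  · rw [h1]; simp
  · have h4 : (φ x - φ 1) / (x ^ d - 1) ≤ sSup T := le_csSup hbd ⟨x, h1, rfl⟩
    rw [div_le_iff₀ (hpos x h1)] at h4
    linarith

/-- The lower bound below `1`. -/
theorem lower (h : Sc d φ) (h0 : φ 0 = 0) {x : ℝ} (hx : 0 ≤ x) (hx1 : x ≤ 1) :
    x ^ d * φ 1 ≤ φ x := by
  rcases hx.eq_or_lt with h1 | h1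
  · rw [← h1, h0, zero_pow h.pos, zero_mul]
  · have h2 := h.scale x⁻¹ 0 x (one_le_inv_iff₀.mpr ⟨h1, hx1⟩) le_rfl hx
    rw [inv_mul_cancel₀ h1.ne', mul_zero, h0, sub_zero, sub_zero] at h2
    have h3 := mul_le_mul_of_nonneg_left h2 (by positivity : 0 ≤ x ^ d)
    have e : x ^ d * (x⁻¹ ^ d * φ x) = φ x := by
      rw [← mul_assoc, ← mul_pow, mul_inv_cancel₀ h1.ne', one_pow, one_mul]
    linarith

end Pool.Agent.KneserThree
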