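import Pool.Agent.KneserThree.Slices
import Pool.Agent.KneserMult.Scale
import Pool.Agent.KneserPoly.Thin

/-!
# Congruent balls in three dimensions: the factor `4 / 3`
-/

set_option autoImplicit false
set_option linter.unusedSectionVars false

namespace Pool.Agent.KneserThree

open Set Filter Topology MeasureTheory Module
open Pool.Agent.KneserMult Pool.Agent.KneserPoly

variable {ι : Type*} [Fintype ι] [DecidableEq ι]

theorem exists_line : ∃ L : ℝ ≃ₗᵢ[ℝ] EuclideanSpace ℝ (Fin 1), True := by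
  refine ⟨((stdOrthonormalBasis ℝ ℝ).reindex (finCongr (finrank_self ℝ))).repr, trivial⟩

theorem slice_line (m : ℕ) (x : ι → EuclideanSpace ℝ (Fin 3)) (s : ℝ) :
    Integrable (fun t : ℝ => Vf m x (s - t ^ 2)) ∧
      Vf m (fun i => inclE 3 1 (x i)) s = ∫ t : ℝ, Vf m x (s - t ^ 2) := by
  obtain ⟨L, -⟩ := exists_line
  obtain ⟨h1, h2⟩ := Vf_slice (d := 3) (e := 1) m x s
  have hL := L.measurePreserving
  have hn : ∀ t : ℝ, Vf m x (s - ‖L t‖ ^ 2) = Vf m x (s - t ^ 2) := by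
    intro t
    rw [L.norm_map, Real.norm_eq_abs, sq_abs]
  constructor
  · have h3 := hL.integrable_comp_of_integrable h1
    refine h3.congr (Eventually.of_forall fun t => ?_)
    exact hn t
  · rw [h2, ← hL.integral_comp L.toHomeomorph.measurableEmbedding]
    exact integral_congr_ae (Eventually.of_forall fun t => hn t)

/-- the functional as a function of the square of the radius in units of `r` -/
noncomputable def Wf (m : ℕ) (x : ι → EuclideanSpace ℝ (Fin 3)) (r : ℝ) (y : ℝ) : ℝ :=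
  Vf m x (r ^ 2 * y)

theorem Wf_mono (m : ℕ) (x : ι → EuclideanSpace ℝ (Fin 3)) (r : ℝ) : Monotone (Wf m x r) := by
  intro a b hab
  exact Vf_mono m x (mul_le_mul_of_nonneg_left hab (sq_nonneg r))

theorem Wf_zero (m : ℕ) (x : ι → EuclideanSpace ℝ (Fin 3)) (r : ℝ) : Wf m x r 0 = 0 := by
  unfold Wf
  rw [mul_zero]
  exact Vf_nonpos m x le_rfl

theorem Wf_sc (m : ℕ) (x : ι → EuclideanSpace ℝ (Fin 3)) (r : ℝ) :
    Sc 3 fun ρ => Wf m x r (ρ ^ 2) := by
  constructor
  · norm_num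
  · intro a b ha hab
    exact Wf_mono m x r (pow_le_pow_left₀ ha hab 2)
  · intro c a b hc ha hab
    have h1 := Vf_diff_scale m x
      (mul_le_mul_of_nonneg_left (pow_le_pow_left₀ ha hab 2) (sq_nonneg r)) hc
    unfold Wf
    have e : ∀ u : ℝ, r ^ 2 * (c * u) ^ 2 = c ^ 2 * (r ^ 2 * u ^ 2) := fun u => by ring
    rw [e, e]
    exact h1

theorem Wf_integral (m : ℕ) (x : ι → EuclideanSpace ℝ (Fin 3)) {r : ℝ} (hr : 0 < r) :
    Integrable (fun t : ℝ => Wf m x r (RR ^ 2 - t ^ 2)) ∧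
      ∫ t in (-RR)..RR, Wf m x r (RR ^ 2 - t ^ 2) =
        r⁻¹ * Vf m (fun i => inclE 3 1 (x i)) (r ^ 2 * RR ^ 2) := by
  obtain ⟨h1, h2⟩ := slice_line m x (r ^ 2 * RR ^ 2)
  have e : ∀ t : ℝ, Vf m x (r ^ 2 * RR ^ 2 - (r * t) ^ 2) = Wf m x r (RR ^ 2 - t ^ 2) := by
    intro t
    unfold Wf
    congr 1
    ring
  have h3 : Integrable (fun t : ℝ => Wf m x r (RR ^ 2 - t ^ 2)) := by
    have h4 := h1.comp_mul_left' hr.ne'
    refine h4.congr (Eventually.of_forall fun t => ?_)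
    exact e t
  refine ⟨h3, ?_⟩
  rw [intervalIntegral.integral_eq_integral_of_support_subset]
  · rw [h2]
    have h5 := Measure.integral_comp_mul_left
      (fun t : ℝ => Vf m x (r ^ 2 * RR ^ 2 - t ^ 2)) r
    rw [abs_of_pos (inv_pos.mpr hr), smul_eq_mul] at h5
    rw [← h5]
    exact integral_congr_ae (Eventually.of_forall fun t => (e t).symm)
  · intro t ht
    by_contra hn
    apply ht
    have h6 : RR ^ 2 - t ^ 2 ≤ 0 := by
      rw [mem_Ioc, not_and_or, not_lt, not_le] at hn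
      have := RR_pos
      rcases hn with hn | hn <;> nlinarith
    have h7 := Wf_mono m x r h6
    rw [Wf_zero] at h7
    have h8 : 0 ≤ Wf m x r (RR ^ 2 - t ^ 2) := Vf_nonneg _ _ _
    exact le_antisymm h7 h8

/-- The inequality for the functional `Vf`. -/
theorem Vf_three (m : ℕ) (p q : ι → EuclideanSpace ℝ (Fin 3))
    (hpq : ∀ i j, dist (q i) (q j) ≤ dist (p i) (p j)) {r : ℝ} (hr : 0 < r) :
    Vf m q (r ^ 2) ≤ 4 / 3 * Vf m p (r ^ 2) := by
  obtain ⟨hp1, hp2⟩ := Wf_integral m p hr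
  obtain ⟨hq1, hq2⟩ := Wf_integral m q hr
  have h1 := upper_est (Wf_sc m p r) hp1
  have h2 := lower_est (Wf_mono m q r) (Wf_zero m q r) (Wf_sc m q r) hq1
  have h3 := Vf_lift_mono (d := 3) (e := 1) (by norm_num) m p q hpq (r ^ 2 * RR ^ 2)
  have h4 := mul_le_mul_of_nonneg_left h3 (inv_nonneg.mpr hr.le)
  rw [hp2] at h1
  rw [hq2] at h2
  have h5 : 3 / 2 * RR * Wf m q r 1 ≤ 2 * RR * Wf m p r 1 := h2.trans (h4.trans h1)
  have hR := RR_pos
  have e : ∀ x : ι → EuclideanSpace ℝ (Fin 3), Wf m x r 1 = Vf m x (r ^ 2) := by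
    intro x; unfold Wf; rw [mul_one]
  rw [e, e] at h5
  have h6 : RR * Vf m q (r ^ 2) ≤ RR * (4 / 3 * Vf m p (r ^ 2)) := by nlinarith
  exact le_of_mul_le_mul_left h6 hR

theorem weighted_three {n : ℕ} (p q : Fin n → EuclideanSpace ℝ (Fin 3))
    (hpq : ∀ i j, dist (q i) (q j) ≤ dist (p i) (p j)) {r : ℝ} (hr : 0 < r)
    {τ : Fin n → ℝ} (hτ : Antitone τ) (hτ0 : ∀ i, 0 ≤ τ i) :
    ∑ k : Fin n, τ k * (volume {z | k.val + 1 ≤ cc q (fun _ => r) z}).toReal ≤
      4 / 3 * ∑ k : Fin n, τ k * (volume {z | k.val + 1 ≤ cc p (fun _ => r) z}).toReal := by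
  let τ' : ℕ → ℝ := fun k => if h : k < n then τ ⟨k, h⟩ else 0
  let c : ℕ → ℝ := fun k =>
    4 / 3 * (volume {z | k + 1 ≤ cc p (fun _ => r) z}).toReal -
    (volume {z | k + 1 ≤ cc q (fun _ => r) z}).toReal
  have hV : ∀ (m : ℕ) (x : Fin n → EuclideanSpace ℝ (Fin 3)),
      Vf m x (r ^ 2) = ∑ k ∈ Finset.range m,
        (volume {z | k + 1 ≤ cc x (fun _ => r) z}).toReal := by
    intro m x
    exact integral_min x (fun _ => hr) m
  have hpart : ∀ m, m ≤ n → 0 ≤ ∑ k ∈ Finset.range m, c k := by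
    intro m _
    have h := Vf_three m p q hpq hr
    rw [hV, hV] at h
    simp only [c]
    rw [Finset.sum_sub_distrib, ← Finset.mul_sum, sub_nonneg]
    exact h
  have key := abel_nonneg n τ' c (by
      intro k hk
      have h1 : k < n := by omega
      simp only [τ', hk, h1, dif_pos]
      exact hτ (by simp))
    (by
      intro k hk
      simp only [τ', hk, dif_pos]
      exact hτ0 _)
    hpart
  rw [Finset.sum_range] at key
  have h2 : ∑ i : Fin n, τ' i * c i =
      4 / 3 * ∑ k : Fin n, τ k * (volume {z | k.val + 1 ≤ cc p (fun _ => r) z}).toReal -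
      ∑ k : Fin n, τ k * (volume {z | k.val + 1 ≤ cc q (fun _ => r) z}).toReal := by
    rw [Finset.mul_sum, ← Finset.sum_sub_distrib]
    apply Finset.sum_congr rfl
    intro k _
    simp only [τ', c, k.isLt, dif_pos]
    ring
  rw [h2] at key
  linarith

end Pool.Agent.KneserThree
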