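import Pool.Agent.KneserThree.General
import Pool.Agent.KneserThree.Final

/-!
# Congruent balls in dimension `e + 2`: the factor `(4 / 3) ^ e`
-/

set_option autoImplicit false
set_option linter.unusedSectionVars false

namespace Pool.Agent.KneserThree

open Set Filter Topology MeasureTheory Module
open Pool.Agent.KneserMult Pool.Agent.KneserPoly

variable {ι : Type*} [Fintype ι] [DecidableEq ι]

theorem Vf_sc {d : ℕ} (hd : d ≠ 0) (m : ℕ) (x : ι → EuclideanSpace ℝ (Fin d)) :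
    Sc d fun ρ => Vf m x (ρ ^ 2) := by
  constructor
  · exact hd
  · intro a b ha hab
    exact Vf_mono m x (pow_le_pow_left₀ ha hab 2)
  · intro c a b hc ha hab
    have h1 := Vf_diff_scale m x (pow_le_pow_left₀ ha hab 2) hc
    simp only
    rw [mul_pow, mul_pow]
    exact h1

theorem Vf_factor {e : ℕ} (he : e ≠ 0) (m : ℕ) (p q : ι → EuclideanSpace ℝ (Fin (e + 2)))
    (hpq : ∀ i j, dist (q i) (q j) ≤ dist (p i) (p j)) {R : ℝ} (hR : 0 < R)
    (hom : om (e + 2 + e) * R ^ (e + 2) ≤ om (e + 2) * om e)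
    (k : ℕ) (T H : ℕ → ℝ) (hT0 : ∀ j, 0 ≤ T j) (hT1 : T 0 ≤ 1) (hT : ∀ j, T (j + 1) ≤ T j)
    (hH0 : ∀ j < k, 0 ≤ H j) (hTH : ∀ j < k, H j ^ 2 + T j ^ 2 ≤ R ^ 2)
    (hsum : (3 / 4) ^ e * R ^ e ≤
      ∑ j ∈ Finset.range k, (T j ^ (e + 2) - T (j + 1) ^ (e + 2)) * H j ^ e) :
    Vf m q 1 ≤ (4 / 3) ^ e * Vf m p 1 := by
  have hd : e + 2 ≠ 0 := by omega
  have mono : ∀ x : ι → EuclideanSpace ℝ (Fin (e + 2)), Monotone (Vf m x) :=
    fun x a b hab => Vf_mono m x hab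
  have zero : ∀ x : ι → EuclideanSpace ℝ (Fin (e + 2)), Vf m x 0 = 0 :=
    fun x => Vf_nonpos m x le_rfl
  obtain ⟨p1, p2⟩ := Vf_slice (e := e) m p (R ^ 2)
  obtain ⟨q1, q2⟩ := Vf_slice (e := e) m q (R ^ 2)
  have h1 := upper_gen hd he hR hom (mono p) (zero p) (Vf_sc hd m p) p1
  have h2 := lower_gen he (mono q) (fun y => Vf_nonneg m q y) (zero q) (Vf_sc hd m q) q1
    k T H hT0 hT1 hT hH0 hTH
  have h3 := Vf_lift_mono (d := e + 2) (e := e) le_rfl m p q hpq (R ^ 2)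
  rw [p2, q2] at h3
  have h4 := h2.trans (h3.trans h1)
  have ho := om_pos e
  have hq := Vf_nonneg m q 1
  have h5 : om e * ((3 / 4) ^ e * R ^ e) * Vf m q 1 ≤ om e * R ^ e * Vf m p 1 :=
    (mul_le_mul_of_nonneg_right (mul_le_mul_of_nonneg_left hsum ho.le) hq).trans h4
  have hR' : 0 < R ^ e := by positivity
  have e1 : ((4 : ℝ) / 3) ^ e * (3 / 4) ^ e = 1 := by
    rw [← mul_pow]; norm_num
  have h6 : (3 / 4) ^ e * Vf m q 1 ≤ Vf m p 1 := by
    have : (om e * R ^ e) * ((3 / 4) ^ e * Vf m q 1) ≤ (om e * R ^ e) * Vf m p 1 := by linarith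
    exact le_of_mul_le_mul_left this (by positivity)
  calc Vf m q 1 = (4 / 3) ^ e * ((3 / 4) ^ e * Vf m q 1) := by rw [← mul_assoc, e1, one_mul]
    _ ≤ (4 / 3) ^ e * Vf m p 1 := mul_le_mul_of_nonneg_left h6 (by positivity)

/-! ### The values of the constants -/

theorem om2 : om 2 = Real.pi := by
  rw [om_add_two 0, om_zero]; push_cast; ring

theorem om3 : om 3 = 4 / 3 * Real.pi := by
  rw [om_add_two 1, om_one]; push_cast; ring

theorem om4 : om 4 = Real.pi ^ 2 / 2 := by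
  rw [om_add_two 2, om2]; push_cast; ring

theorem om5 : om 5 = 8 / 15 * Real.pi ^ 2 := by
  rw [om_add_two 3, om3]; push_cast; ring

theorem om6 : om 6 = Real.pi ^ 3 / 6 := by
  rw [om_add_two 4, om4]; push_cast; ring

theorem om7 : om 7 = 16 / 105 * Real.pi ^ 3 := by
  rw [om_add_two 5, om5]; push_cast; ring

theorem om8 : om 8 = Real.pi ^ 4 / 24 := by
  rw [om_add_two 6, om6]; push_cast; ring

theorem om10 : om 10 = Real.pi ^ 5 / 120 := by
  rw [om_add_two 8, om8]; push_cast; ring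

theorem om12 : om 12 = Real.pi ^ 6 / 720 := by
  rw [om_add_two 10, om10]; push_cast; ring

theorem om14 : om 14 = Real.pi ^ 7 / 5040 := by
  rw [om_add_two 12, om12]; push_cast; ring

/-! ### Dimension four -/

/-- radii -/
noncomputable def T4 : ℕ → ℝ
  | 0 => 1
  | 1 => 0.9327
  | 2 => 0.854
  | 3 => 0.755
  | 4 => 0.616
  | _ => 0

/-- heights -/
noncomputable def H4 : ℕ → ℝ
  | 0 => 0.855
  | 1 => 0.928
  | 2 => 1.001
  | 3 => 1.077
  | _ => 1.162

theorem Vf_four (m : ℕ) (p q : ι → EuclideanSpace ℝ (Fin 4))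
    (hpq : ∀ i j, dist (q i) (q j) ≤ dist (p i) (p j)) :
    Vf m q 1 ≤ (4 / 3) ^ 2 * Vf m p 1 := by
  have hpi := Real.pi_pos
  refine Vf_factor (e := 2) (by norm_num) m p q hpq (R := 1.316) (by norm_num) ?_ 5 T4 H4
    ?_ ?_ ?_ ?_ ?_ ?_
  · have h : om 6 * 1.316 ^ 4 ≤ om 4 * om 2 := by
      rw [om6, om4, om2]
      have : 0 < Real.pi ^ 3 := by positivity
      nlinarith
    exact h
  · intro j
    match j with
    | 0 | 1 | 2 | 3 | 4 => norm_num [T4]
    | j + 5 => simp [T4]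
  · simp [T4]
  · intro j
    match j with
    | 0 | 1 | 2 | 3 | 4 => norm_num [T4]
    | j + 5 => simp [T4]
  · intro j hj
    interval_cases j <;> norm_num [H4]
  · intro j hj
    interval_cases j <;> norm_num [H4, T4]
  · simp only [Finset.sum_range_succ, Finset.sum_range_zero, T4, H4]
    norm_num

/-! ### Dimension five -/

/-- radii -/
noncomputable def T5 : ℕ → ℝ
  | 0 => 1
  | 1 => 0.9
  | 2 => 0.77
  | _ => 0

/-- heights -/
noncomputable def H5 : ℕ → ℝ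
  | 0 => 0.9797
  | 1 => 1.0723
  | _ => 1.1692

theorem Vf_five (m : ℕ) (p q : ι → EuclideanSpace ℝ (Fin 5))
    (hpq : ∀ i j, dist (q i) (q j) ≤ dist (p i) (p j)) :
    Vf m q 1 ≤ (4 / 3) ^ 3 * Vf m p 1 := by
  have hpi := Real.pi_pos
  refine Vf_factor (e := 3) (by norm_num) m p q hpq (R := 1.4) (by norm_num) ?_ 3 T5 H5
    ?_ ?_ ?_ ?_ ?_ ?_
  · have h : om 8 * 1.4 ^ 5 ≤ om 5 * om 3 := by
      rw [om8, om5, om3]
      have h1 : 0 < Real.pi ^ 3 := by positivity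
      have h2 := Real.pi_lt_d2
      have h3 : Real.pi / 24 * 1.4 ^ 5 ≤ 8 / 15 * (4 / 3) := by norm_num; linarith
      have h4 := mul_le_mul_of_nonneg_left h3 h1.le
      calc Real.pi ^ 4 / 24 * 1.4 ^ 5 = Real.pi ^ 3 * (Real.pi / 24 * 1.4 ^ 5) := by ring
        _ ≤ Real.pi ^ 3 * (8 / 15 * (4 / 3)) := h4
        _ = 8 / 15 * Real.pi ^ 2 * (4 / 3 * Real.pi) := by ring
    exact h
  · intro j
    match j with
    | 0 | 1 | 2 => norm_num [T5]
    | j + 3 => simp [T5]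
  · simp [T5]
  · intro j
    match j with
    | 0 | 1 | 2 => norm_num [T5]
    | j + 3 => simp [T5]
  · intro j hj
    interval_cases j <;> norm_num [H5]
  · intro j hj
    interval_cases j <;> norm_num [H5, T5]
  · simp only [Finset.sum_range_succ, Finset.sum_range_zero, T5, H5]
    norm_num

/-! ### Dimension six -/

/-- radii -/
noncomputable def T6 : ℕ → ℝ
  | 0 => 1
  | 1 => 0.894
  | _ => 0

/-- heights -/
noncomputable def H6 : ℕ → ℝ
  | 0 => 1.07
  | _ => 1.16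

theorem Vf_six (m : ℕ) (p q : ι → EuclideanSpace ℝ (Fin 6))
    (hpq : ∀ i j, dist (q i) (q j) ≤ dist (p i) (p j)) :
    Vf m q 1 ≤ (4 / 3) ^ 4 * Vf m p 1 := by
  have hpi := Real.pi_pos
  refine Vf_factor (e := 4) (by norm_num) m p q hpq (R := 1.466) (by norm_num) ?_ 2 T6 H6
    ?_ ?_ ?_ ?_ ?_ ?_
  · have h : om 10 * 1.466 ^ 6 ≤ om 6 * om 4 := by
      rw [om10, om6, om4]
      have h1 : 0 < Real.pi ^ 5 := by positivity
      nlinarith
    exact h
  · intro j
    match j with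
    | 0 | 1 => norm_num [T6]
    | j + 2 => simp [T6]
  · simp [T6]
  · intro j
    match j with
    | 0 | 1 => norm_num [T6]
    | j + 2 => simp [T6]
  · intro j hj
    interval_cases j <;> norm_num [H6]
  · intro j hj
    interval_cases j <;> norm_num [H6, T6]
  · simp only [Finset.sum_range_succ, Finset.sum_range_zero, T6, H6]
    norm_num

/-! ### Dimension at least seven -/

/-- the radius -/
noncomputable def R7 : ℝ := 4 / √7

theorem sqrt7_pos : (0 : ℝ) < √7 := Real.sqrt_pos.mpr (by norm_num)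

theorem R7_pos : 0 < R7 := by
  have := sqrt7_pos
  unfold R7; positivity

theorem R7_sq : R7 ^ 2 = 16 / 7 := by
  unfold R7
  rw [div_pow, Real.sq_sqrt (by norm_num)]
  norm_num

theorem om_step (e : ℕ) (h : om (e + 2 + e) * R7 ^ (e + 2) ≤ om (e + 2) * om e) :
    om (e + 2 + 2 + (e + 2)) * R7 ^ (e + 2 + 2) ≤ om (e + 2 + 2) * om (e + 2) := by
  have hpi := Real.pi_pos
  have e1 : e + 2 + 2 + (e + 2) = e + 2 + e + 2 + 2 := by ring
  rw [e1, om_add_two (e + 2 + e + 2), om_add_two (e + 2 + e), om_add_two (e + 2), pow_add,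
    R7_sq]
  have h1 : om (e + 2) * om (e + 2) = om (e + 2) * om e * (2 * Real.pi / (e + 2)) := by
    rw [mul_assoc, ← om_add_two e]
  have h2 : om (e + 2) * (2 * Real.pi / (((e + 2 : ℕ) : ℝ) + 2)) * om (e + 2) =
      om (e + 2) * om e * ((2 * Real.pi / (e + 2)) * (2 * Real.pi / (((e + 2 : ℕ) : ℝ) + 2))) := by
    calc _ = om (e + 2) * om (e + 2) * (2 * Real.pi / (((e + 2 : ℕ) : ℝ) + 2)) := by ring
      _ = _ := by rw [h1]; ring
  rw [h2]
  have hc : 0 ≤ (2 * Real.pi / (((e + 2 + e : ℕ) : ℝ) + 2)) *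
      (2 * Real.pi / (((e + 2 + e + 2 : ℕ) : ℝ) + 2)) * (16 / 7) := by positivity
  have h3 := mul_le_mul_of_nonneg_right h hc
  have h4 : (2 * Real.pi / (((e + 2 + e : ℕ) : ℝ) + 2)) *
      (2 * Real.pi / (((e + 2 + e + 2 : ℕ) : ℝ) + 2)) * (16 / 7) ≤
      (2 * Real.pi / (e + 2)) * (2 * Real.pi / (((e + 2 : ℕ) : ℝ) + 2)) := by
    push_cast
    have he : (0 : ℝ) ≤ e := Nat.cast_nonneg e
    have a1 : (2 * Real.pi / ((e : ℝ) + 2 + e + 2)) * (2 * Real.pi / ((e : ℝ) + 2 + e + 2 + 2)) *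
        (16 / 7) = Real.pi ^ 2 * (16 / 7 / (((e : ℝ) + 2) * (e + 3))) := by
      field_simp
      ring
    have a2 : (2 * Real.pi / ((e : ℝ) + 2)) * (2 * Real.pi / ((e : ℝ) + 2 + 2)) =
        Real.pi ^ 2 * (4 / (((e : ℝ) + 2) * (e + 4))) := by
      field_simp
      ring
    rw [a1, a2]
    apply mul_le_mul_of_nonneg_left _ (by positivity)
    rw [div_le_div_iff₀ (by positivity) (by positivity)]
    nlinarith [mul_nonneg he he]
  have h5 := mul_le_mul_of_nonneg_left h4 (mul_nonneg (om_pos (e + 2)).le (om_pos e).le)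
  calc _ = om (e + 2 + e) * R7 ^ (e + 2) * ((2 * Real.pi / (((e + 2 + e : ℕ) : ℝ) + 2)) *
      (2 * Real.pi / (((e + 2 + e + 2 : ℕ) : ℝ) + 2)) * (16 / 7)) := by ring
    _ ≤ _ := h3
    _ ≤ _ := h5

theorem om_five : om (5 + 2 + 5) * R7 ^ (5 + 2) ≤ om (5 + 2) * om 5 := by
  have hpi := Real.pi_pos
  have h : om 12 * R7 ^ 7 ≤ om 7 * om 5 := by
    rw [om12, om7, om5]
    have h1 : 0 < Real.pi ^ 5 := by positivity
    have h2 := Real.pi_lt_d2
    have h7 := sqrt7_pos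
    have h8 : (2.64 : ℝ) ≤ √7 := Real.le_sqrt_of_sq_le (by norm_num)
    have hR : R7 ≤ 4 / 2.64 := by
      unfold R7
      exact div_le_div_of_nonneg_left (by norm_num) (by norm_num) h8
    have h9 : R7 ^ 7 ≤ 4096 / 343 * (4 / 2.64) := by
      have : R7 ^ 7 = (R7 ^ 2) ^ 3 * R7 := by ring
      rw [this, R7_sq]
      have := mul_le_mul_of_nonneg_left hR (by norm_num : (0 : ℝ) ≤ (16 / 7) ^ 3)
      refine this.trans (le_of_eq (by norm_num))
    have h3 : Real.pi / 720 * R7 ^ 7 ≤ 16 / 105 * (8 / 15) := by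
      have h10 : Real.pi / 720 * R7 ^ 7 ≤ 3.15 / 720 * (4096 / 343 * (4 / 2.64)) := by
        apply mul_le_mul (by linarith) h9 (by have := R7_pos; positivity) (by norm_num)
      refine h10.trans (by norm_num)
    have h4 := mul_le_mul_of_nonneg_left h3 h1.le
    calc Real.pi ^ 6 / 720 * R7 ^ 7 = Real.pi ^ 5 * (Real.pi / 720 * R7 ^ 7) := by ring
      _ ≤ Real.pi ^ 5 * (16 / 105 * (8 / 15)) := h4
      _ = 16 / 105 * Real.pi ^ 3 * (8 / 15 * Real.pi ^ 2) := by ring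
  exact h

theorem om_six : om (6 + 2 + 6) * R7 ^ (6 + 2) ≤ om (6 + 2) * om 6 := by
  have hpi := Real.pi_pos
  have h : om 14 * R7 ^ 8 ≤ om 8 * om 6 := by
    rw [om14, om8, om6]
    have h1 : 0 < Real.pi ^ 7 := by positivity
    have : R7 ^ 8 = (R7 ^ 2) ^ 4 := by ring
    rw [this, R7_sq]
    nlinarith
  exact h

theorem om_all (n : ℕ) : (om (5 + n + 2 + (5 + n)) * R7 ^ (5 + n + 2) ≤
    om (5 + n + 2) * om (5 + n)) ∧ (om (6 + n + 2 + (6 + n)) * R7 ^ (6 + n + 2) ≤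
    om (6 + n + 2) * om (6 + n)) := by
  induction n with
  | zero => exact ⟨om_five, om_six⟩
  | succ n ih =>
    have e1 : 5 + (n + 1) = 6 + n := by ring
    have e2 : 6 + (n + 1) = 5 + n + 2 := by ring
    rw [e1, e2]
    exact ⟨ih.2, om_step (5 + n) ih.1⟩

theorem Vf_seven {e : ℕ} (he : 5 ≤ e) (m : ℕ) (p q : ι → EuclideanSpace ℝ (Fin (e + 2)))
    (hpq : ∀ i j, dist (q i) (q j) ≤ dist (p i) (p j)) :
    Vf m q 1 ≤ (4 / 3) ^ e * Vf m p 1 := by
  have h7 := sqrt7_pos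
  obtain ⟨n, rfl⟩ := Nat.exists_eq_add_of_le he
  refine Vf_factor (e := 5 + n) (by omega) m p q hpq (R := R7) R7_pos (om_all n).1 1
    (fun j => if j = 0 then 1 else 0) (fun _ => 3 / √7) ?_ ?_ ?_ ?_ ?_ ?_
  · intro j
    split_ifs <;> norm_num
  · simp
  · intro j
    simp
    split_ifs <;> norm_num
  · intro j _
    positivity
  · intro j hj
    have : j = 0 := by omega
    rw [R7_sq, div_pow, Real.sq_sqrt (by norm_num), this]
    norm_num
  · simp only [Finset.sum_range_succ, Finset.sum_range_zero]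
    have e1 : (3 : ℝ) / 4 * R7 = 3 / √7 := by
      unfold R7; field_simp
    rw [← mul_pow, e1]
    simp

/-! ### Dimension two -/

theorem Vf_two (m : ℕ) (p q : ι → EuclideanSpace ℝ (Fin 2))
    (hpq : ∀ i j, dist (q i) (q j) ≤ dist (p i) (p j)) (s : ℝ) :
    Vf m q s ≤ Vf m p s := by
  have h3 := Vf_lift_mono (d := 2) (e := 0) le_rfl m p q hpq s
  have hfin : finrank ℝ (EuclideanSpace ℝ (Fin 2)) =
      finrank ℝ (WithLp 2 (EuclideanSpace ℝ (Fin 2) × EuclideanSpace ℝ (Fin 0))) := by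
    rw [finrank_prodE]; simp
  have h : ∀ x : ι → EuclideanSpace ℝ (Fin 2), Vf m (fun i => inclE 2 0 (x i)) s = Vf m x s := by
    intro x
    exact Int_isometry ((inclE 2 0).toLinearIsometryEquiv hfin) x (fun _ => s) (Gm m)
  rwa [h, h] at h3

/-! ### All dimensions -/

theorem Vf_all_one (e : ℕ) (m : ℕ) (p q : ι → EuclideanSpace ℝ (Fin (e + 2)))
    (hpq : ∀ i j, dist (q i) (q j) ≤ dist (p i) (p j)) :
    Vf m q 1 ≤ (4 / 3) ^ e * Vf m p 1 := by
  match e with
  | 0 => simpa using Vf_two m p q hpq 1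
  | 1 =>
    have := Vf_three m p q hpq (r := 1) one_pos
    simpa using this
  | 2 => exact Vf_four m p q hpq
  | 3 => exact Vf_five m p q hpq
  | 4 => exact Vf_six m p q hpq
  | e + 5 => exact Vf_seven (by omega) m p q hpq

theorem Vf_all (e : ℕ) (m : ℕ) (p q : ι → EuclideanSpace ℝ (Fin (e + 2)))
    (hpq : ∀ i j, dist (q i) (q j) ≤ dist (p i) (p j)) {r : ℝ} (hr : 0 < r) :
    Vf m q (r ^ 2) ≤ (4 / 3) ^ e * Vf m p (r ^ 2) := by
  have h := Vf_all_one e m (fun i => r⁻¹ • p i) (fun i => r⁻¹ • q i) (by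
    intro i j
    rw [dist_smul₀, dist_smul₀]
    exact mul_le_mul_of_nonneg_left (hpq i j) (norm_nonneg _))
  have hs : ∀ x : ι → EuclideanSpace ℝ (Fin (e + 2)),
      Vf m x (r ^ 2) = r ^ (e + 2) * Vf m (fun i => r⁻¹ • x i) 1 := by
    intro x
    have h1 := Vf_scale m (fun i => r⁻¹ • x i) hr 1
    rw [mul_one] at h1
    rw [← h1]
    congr 1
    funext i
    rw [smul_smul, mul_inv_cancel₀ hr.ne', one_smul]
  rw [hs, hs]
  have h2 := mul_le_mul_of_nonneg_left h (by positivity : 0 ≤ r ^ (e + 2))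
  linarith

theorem weighted_all {n e : ℕ} (p q : Fin n → EuclideanSpace ℝ (Fin (e + 2)))
    (hpq : ∀ i j, dist (q i) (q j) ≤ dist (p i) (p j)) {r : ℝ} (hr : 0 < r)
    {τ : Fin n → ℝ} (hτ : Antitone τ) (hτ0 : ∀ i, 0 ≤ τ i) :
    ∑ k : Fin n, τ k * (volume {z | k.val + 1 ≤ cc q (fun _ => r) z}).toReal ≤
      (4 / 3) ^ e * ∑ k : Fin n, τ k * (volume {z | k.val + 1 ≤ cc p (fun _ => r) z}).toReal := by
  let τ' : ℕ → ℝ := fun k => if h : k < n then τ ⟨k, h⟩ else 0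
  let c : ℕ → ℝ := fun k =>
    (4 / 3) ^ e * (volume {z | k + 1 ≤ cc p (fun _ => r) z}).toReal -
    (volume {z | k + 1 ≤ cc q (fun _ => r) z}).toReal
  have hV : ∀ (m : ℕ) (x : Fin n → EuclideanSpace ℝ (Fin (e + 2))),
      Vf m x (r ^ 2) = ∑ k ∈ Finset.range m,
        (volume {z | k + 1 ≤ cc x (fun _ => r) z}).toReal := by
    intro m x
    exact integral_min x (fun _ => hr) m
  have hpart : ∀ m, m ≤ n → 0 ≤ ∑ k ∈ Finset.range m, c k := by
    intro m _
    have h := Vf_all e m p q hpq hr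
    rw [hV, hV] at h
    simp only [c]
    rw [Finset.sum_sub_distrib, ← Finset.mul_sum, sub_nonneg]
    exact h
  have key := abel_nonneg n τ' c (by
      intro k hk
      have h1 : k < n := by omega
      simp only [τ', hk, h1, dif_pos]
      exact hτ (by simp))
    (by
      intro k hk
      simp only [τ', hk, dif_pos]
      exact hτ0 _)
    hpart
  rw [Finset.sum_range] at key
  have h2 : ∑ i : Fin n, τ' i * c i =
      (4 / 3) ^ e * ∑ k : Fin n, τ k * (volume {z | k.val + 1 ≤ cc p (fun _ => r) z}).toReal -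
      ∑ k : Fin n, τ k * (volume {z | k.val + 1 ≤ cc q (fun _ => r) z}).toReal := by
    rw [Finset.mul_sum, ← Finset.sum_sub_distrib]
    apply Finset.sum_congr rfl
    intro k _
    simp only [τ', c, k.isLt, dif_pos]
    ring
  rw [h2] at key
  linarith

end Pool.Agent.KneserThree
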