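import Pool.Agent.KneserThree.Concave
import Pool.Agent.KneserMult.Scale

/-!
# Congruent balls in dimension `e + 2`: the general estimates
-/

set_option autoImplicit false
set_option linter.unusedSectionVars false

namespace Pool.Agent.KneserThree

open Set Filter Topology MeasureTheory Module
open Pool.Agent.KneserMult

/-- the volume of the unit ball -/
noncomputable def om (k : ℕ) : ℝ := √Real.pi ^ k / Real.Gamma (k / 2 + 1)

theorem om_pos (k : ℕ) : 0 < om k := by
  unfold om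
  have h1 : 0 < √Real.pi := Real.sqrt_pos.mpr Real.pi_pos
  have h2 : 0 < Real.Gamma ((k : ℝ) / 2 + 1) := Real.Gamma_pos_of_pos (by positivity)
  positivity

theorem om_zero : om 0 = 1 := by
  unfold om; simp

theorem om_one : om 1 = 2 := by
  unfold om
  have h : Real.Gamma ((1 : ℕ) / 2 + 1) = 1 / 2 * √Real.pi := by
    rw [Real.Gamma_add_one (by norm_num), Nat.cast_one, Real.Gamma_one_half_eq]
  have h1 : √Real.pi ≠ 0 := (Real.sqrt_pos.mpr Real.pi_pos).ne'
  rw [h, pow_one]
  field_simp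

theorem om_add_two (k : ℕ) : om (k + 2) = om k * (2 * Real.pi / (k + 2)) := by
  unfold om
  have h2 : Real.Gamma ((k : ℝ) / 2 + 1) ≠ 0 :=
    (Real.Gamma_pos_of_pos (by positivity)).ne'
  have h3 : (k : ℝ) / 2 + 1 ≠ 0 := by positivity
  have e : (((k + 2 : ℕ) : ℝ) / 2 + 1) = ((k : ℝ) / 2 + 1) + 1 := by push_cast; ring
  rw [e, Real.Gamma_add_one h3, pow_add, Real.sq_sqrt Real.pi_pos.le]
  field_simp

section ball

variable {V : Type*} [NormedAddCommGroup V] [InnerProductSpace ℝ V] [FiniteDimensional ℝ V]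
  [MeasurableSpace V] [BorelSpace V] [Nontrivial V]

theorem vol_ball {r : ℝ} (hr : 0 ≤ r) :
    (volume (Metric.ball (0 : V) r)).toReal = om (finrank ℝ V) * r ^ finrank ℝ V := by
  have h : (volume (Metric.ball (0 : V) r)) = ENNReal.ofReal r ^ finrank ℝ V *
      ENNReal.ofReal (om (finrank ℝ V)) := InnerProductSpace.volume_ball _ _
  rw [h, ENNReal.toReal_mul, ENNReal.toReal_pow,
    ENNReal.toReal_ofReal hr, ENNReal.toReal_ofReal (om_pos _).le]
  ring

theorem Vf_one (s : ℝ) :
    Vf 1 (fun _ : Fin 1 => (0 : V)) s = om (finrank ℝ V) * √s ^ finrank ℝ V := by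
  unfold Vf KneserMult.Int
  have h : ∀ z : V, Gm 1 (av (fun _ : Fin 1 => (0 : V)) (fun _ => s) z) =
      (Metric.ball (0 : V) √s).indicator (fun _ => (1 : ℝ)) z := by
    intro z
    unfold Gm cnt av
    by_cases hz : z ∈ Metric.ball (0 : V) √s
    · rw [indicator_of_mem hz]
      rw [mem_ball_zero_iff, Real.lt_sqrt (norm_nonneg z)] at hz
      have h1 : ‖z‖ ^ 2 < s := hz
      simp [h1]
    · rw [indicator_of_notMem hz]
      rw [mem_ball_zero_iff, Real.lt_sqrt (norm_nonneg z)] at hz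
      have h1 : ¬ (‖z‖ ^ 2 < s) := hz
      simp [h1]
  simp_rw [h]
  rw [integral_indicator Metric.isOpen_ball.measurableSet]
  simp only [integral_const, smul_eq_mul, mul_one]
  rw [measureReal_restrict_apply_univ, Measure.real, vol_ball (Real.sqrt_nonneg s)]

end ball

section shell

theorem shell_sum (k : ℕ) : ∀ (A : ℕ → ℝ) (S : ℕ → Prop) [DecidablePred S] (X : ℝ),
    (∀ j, A (j + 1) ≤ A j) → (∀ j, 0 ≤ A j) → 0 ≤ X → (∀ j < k, S j → A j ≤ X) →
    ∑ j ∈ Finset.range k, (if S j then A j - A (j + 1) else 0) ≤ X := by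
  induction k with
  | zero =>
    intro A S _ X _ _ hX _
    simpa using hX
  | succ k ih =>
    intro A S _ X hA hA0 hX hS
    rw [Finset.sum_range_succ']
    have hle : ∀ j, A (j + 1) ≤ A 1 := by
      intro j
      induction j with
      | zero => exact le_rfl
      | succ j ihj => exact (hA _).trans ihj
    by_cases h0 : S 0
    · have h1 := ih (fun j => A (j + 1)) (fun j => S (j + 1)) (A 1) (fun j => hA (j + 1))
        (fun j => hA0 (j + 1)) (hA0 1) (fun j _ _ => hle j)
      have h2 := hS 0 (by omega) h0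
      simp only [h0, if_true, zero_add]
      linarith
    · have h1 := ih (fun j => A (j + 1)) (fun j => S (j + 1)) X (fun j => hA (j + 1))
        (fun j => hA0 (j + 1)) hX (fun j hj hs => hS (j + 1) (by omega) hs)
      simp only [h0, if_false, add_zero]
      exact h1

end shell

section est

variable {W : ℝ → ℝ} {d e : ℕ}

theorem integral_gap (hd : d ≠ 0) (he : e ≠ 0) {R : ℝ} (hR : 0 < R) :
    Integrable (fun w : EuclideanSpace ℝ (Fin e) => √(R ^ 2 - ‖w‖ ^ 2) ^ d) ∧
    ∫ w : EuclideanSpace ℝ (Fin e), √(R ^ 2 - ‖w‖ ^ 2) ^ d = om (d + e) * R ^ (d + e) / om d := by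
  obtain ⟨h1, h2⟩ := Vf_slice (d := d) (e := e) 1 (fun _ : Fin 1 => (0 : EuclideanSpace ℝ (Fin d)))
    (R ^ 2)
  have : Nonempty (Fin d) := ⟨⟨0, Nat.pos_of_ne_zero hd⟩⟩
  have : Nonempty (Fin e) := ⟨⟨0, Nat.pos_of_ne_zero he⟩⟩
  have : Nontrivial (EuclideanSpace ℝ (Fin d)) := by infer_instance
  have : Nontrivial (WithLp 2 (EuclideanSpace ℝ (Fin d) × EuclideanSpace ℝ (Fin e))) := by
    apply Module.nontrivial_of_finrank_pos (R := ℝ)
    rw [finrank_prodE]; omega
  have h3 : ∀ w : EuclideanSpace ℝ (Fin e),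
      Vf 1 (fun _ : Fin 1 => (0 : EuclideanSpace ℝ (Fin d))) (R ^ 2 - ‖w‖ ^ 2) =
        om d * √(R ^ 2 - ‖w‖ ^ 2) ^ d := by
    intro w
    rw [Vf_one]
    simp
  simp_rw [h3] at h1 h2
  have h4 : (fun _ : Fin 1 => (inclE d e) (0 : EuclideanSpace ℝ (Fin d))) =
      fun _ : Fin 1 => (0 : WithLp 2 (EuclideanSpace ℝ (Fin d) × EuclideanSpace ℝ (Fin e))) := by
    funext _
    exact map_zero _
  rw [h4, Vf_one, finrank_prodE, Real.sqrt_sq hR.le, integral_const_mul] at h2
  have h5 := (om_pos d).ne'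
  constructor
  · have h6 := h1.const_mul (om d)⁻¹
    refine h6.congr (Eventually.of_forall fun w => ?_)
    simp only
    rw [← mul_assoc, inv_mul_cancel₀ h5, one_mul]
  · rw [h2]
    field_simp

/-- The upper estimate. -/
theorem upper_gen (hd : d ≠ 0) (he : e ≠ 0) {R : ℝ} (hR : 0 < R)
    (hom : om (d + e) * R ^ d ≤ om d * om e)
    (hW : Monotone W) (hW0 : W 0 = 0) (hS : Sc d fun x => W (x ^ 2))
    (hint : Integrable fun w : EuclideanSpace ℝ (Fin e) => W (R ^ 2 - ‖w‖ ^ 2)) :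
    ∫ w : EuclideanSpace ℝ (Fin e), W (R ^ 2 - ‖w‖ ^ 2) ≤ om e * R ^ e * W 1 := by
  obtain ⟨m, hm, hsup⟩ := support hS
  obtain ⟨g1, g2⟩ := integral_gap hd he hR
  have : Nonempty (Fin e) := ⟨⟨0, Nat.pos_of_ne_zero he⟩⟩
  have : Nontrivial (EuclideanSpace ℝ (Fin e)) := by infer_instance
  have hvol := vol_ball (V := EuclideanSpace ℝ (Fin e)) hR.le
  rw [finrank_euclideanSpace_fin] at hvol
  have hI : Integrable ((Metric.ball (0 : EuclideanSpace ℝ (Fin e)) R).indicator
      fun _ => W 1 - m) := by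
    exact (integrableOn_const measure_ball_lt_top.ne).integrable_indicator
      Metric.isOpen_ball.measurableSet
  have h1 : ∫ w : EuclideanSpace ℝ (Fin e), W (R ^ 2 - ‖w‖ ^ 2) ≤
      ∫ w : EuclideanSpace ℝ (Fin e), ((Metric.ball (0 : EuclideanSpace ℝ (Fin e)) R).indicator
        (fun _ => W 1 - m) w + m * √(R ^ 2 - ‖w‖ ^ 2) ^ d) := by
    apply integral_mono hint (hI.add (g1.const_mul m))
    intro w
    by_cases hw : w ∈ Metric.ball (0 : EuclideanSpace ℝ (Fin e)) R
    · simp only [Pi.add_apply, indicator_of_mem hw]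
      rw [mem_ball_zero_iff] at hw
      have ht2 : 0 ≤ R ^ 2 - ‖w‖ ^ 2 := by nlinarith [norm_nonneg w]
      have h2 := hsup (√(R ^ 2 - ‖w‖ ^ 2)) (Real.sqrt_nonneg _)
      simp only [Real.sq_sqrt ht2, one_pow] at h2
      linarith
    · simp only [Pi.add_apply, indicator_of_notMem hw]
      rw [mem_ball_zero_iff, not_lt] at hw
      have ht2 : R ^ 2 - ‖w‖ ^ 2 ≤ 0 := by nlinarith [norm_nonneg w]
      rw [Real.sqrt_eq_zero_of_nonpos ht2, zero_pow hd, mul_zero, zero_add, ← hW0]
      exact hW ht2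
  rw [integral_add hI (g1.const_mul m), integral_const_mul, g2,
    integral_indicator Metric.isOpen_ball.measurableSet] at h1
  simp only [integral_const, smul_eq_mul] at h1
  rw [measureReal_restrict_apply_univ, Measure.real, hvol] at h1
  have hod := om_pos d
  have h3 : om (d + e) * R ^ (d + e) / om d ≤ om e * R ^ e := by
    rw [div_le_iff₀ hod, pow_add]
    have := mul_le_mul_of_nonneg_right hom (by positivity : 0 ≤ R ^ e)
    linarith
  have h4 := mul_le_mul_of_nonneg_left h3 hm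
  linarith

/-- The lower estimate. -/
theorem lower_gen (he : e ≠ 0) {R : ℝ}
    (hW : Monotone W) (hWn : ∀ y, 0 ≤ W y) (hW0 : W 0 = 0) (hS : Sc d fun x => W (x ^ 2))
    (hint : Integrable fun w : EuclideanSpace ℝ (Fin e) => W (R ^ 2 - ‖w‖ ^ 2))
    (k : ℕ) (T H : ℕ → ℝ) (hT0 : ∀ j, 0 ≤ T j) (hT1 : T 0 ≤ 1) (hT : ∀ j, T (j + 1) ≤ T j)
    (hH0 : ∀ j < k, 0 ≤ H j) (hTH : ∀ j < k, H j ^ 2 + T j ^ 2 ≤ R ^ 2) :
    om e * (∑ j ∈ Finset.range k, (T j ^ d - T (j + 1) ^ d) * H j ^ e) * W 1 ≤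
      ∫ w : EuclideanSpace ℝ (Fin e), W (R ^ 2 - ‖w‖ ^ 2) := by
  have : Nonempty (Fin e) := ⟨⟨0, Nat.pos_of_ne_zero he⟩⟩
  have : Nontrivial (EuclideanSpace ℝ (Fin e)) := by infer_instance
  have hvol : ∀ r : ℝ, 0 ≤ r →
      (volume (Metric.ball (0 : EuclideanSpace ℝ (Fin e)) r)).toReal = om e * r ^ e := by
    intro r hr
    have := vol_ball (V := EuclideanSpace ℝ (Fin e)) hr
    rwa [finrank_euclideanSpace_fin] at this
  have hTle : ∀ j, T j ≤ 1 := by
    intro j
    induction j with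
    | zero => exact hT1
    | succ j ih => exact (hT j).trans ih
  have hI : ∀ (j : ℕ), Integrable ((Metric.ball (0 : EuclideanSpace ℝ (Fin e)) (H j)).indicator
      fun _ => (T j ^ d - T (j + 1) ^ d) * W 1) := by
    intro j
    exact (integrableOn_const measure_ball_lt_top.ne).integrable_indicator
      Metric.isOpen_ball.measurableSet
  have h1 : ∫ w : EuclideanSpace ℝ (Fin e), ∑ j ∈ Finset.range k,
      (Metric.ball (0 : EuclideanSpace ℝ (Fin e)) (H j)).indicator
        (fun _ => (T j ^ d - T (j + 1) ^ d) * W 1) w ≤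
      ∫ w : EuclideanSpace ℝ (Fin e), W (R ^ 2 - ‖w‖ ^ 2) := by
    apply integral_mono (integrable_finsetSum _ fun j _ => hI j) hint
    intro w
    classical
    have key := shell_sum k (fun j => T j ^ d * W 1) (fun j => ‖w‖ < H j)
      (W (R ^ 2 - ‖w‖ ^ 2))
      (fun j => mul_le_mul_of_nonneg_right (pow_le_pow_left₀ (hT0 _) (hT j) d) (hWn 1))
      (fun j => mul_nonneg (pow_nonneg (hT0 j) d) (hWn 1)) (hWn _) (by
        intro j hj hw
        have h2 := lower hS (by simpa using hW0) (hT0 j) (hTle j)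
        simp only [one_pow] at h2
        refine h2.trans (hW ?_)
        have h3 := hTH j hj
        have h4 : ‖w‖ ^ 2 ≤ H j ^ 2 := pow_le_pow_left₀ (norm_nonneg w) hw.le 2
        linarith)
    refine le_trans (le_of_eq ?_) key
    apply Finset.sum_congr rfl
    intro j _
    by_cases hw : ‖w‖ < H j
    · rw [indicator_of_mem (by rw [mem_ball_zero_iff]; exact hw), if_pos hw]
      ring
    · rw [indicator_of_notMem (by rw [mem_ball_zero_iff]; exact hw), if_neg hw]
  rw [integral_finsetSum _ fun j _ => hI j] at h1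
  refine le_trans (le_of_eq ?_) h1
  rw [Finset.mul_sum, Finset.sum_mul]
  apply Finset.sum_congr rfl
  intro j hj
  rw [integral_indicator Metric.isOpen_ball.measurableSet]
  simp only [integral_const, smul_eq_mul]
  rw [measureReal_restrict_apply_univ, Measure.real, hvol _ (hH0 j (Finset.mem_range.mp hj))]
  ring

end est

end Pool.Agent.KneserThree
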