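import Pool.Agent.KneserThree.Concave

/-!
# The two estimates of the slice integral
-/

set_option autoImplicit false

namespace Pool.Agent.KneserThree

open Set Filter Topology MeasureTheory

/-- the radius `R` -/
noncomputable def RR : ℝ := 793 / 665

/-- the height `h` with `R ^ 2 - h ^ 2 = 1` -/
noncomputable def hh : ℝ := 432 / 665

theorem RR_sq : RR ^ 2 - hh ^ 2 = 1 := by
  unfold RR hh; norm_num

theorem RR_pos : 0 < RR := by unfold RR; norm_num

theorem hh_pos : 0 < hh := by unfold hh; norm_num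

theorem hh_lt : hh < RR := by unfold RR hh; norm_num

/-- the cube of the radius of the slice -/
noncomputable def cu (t : ℝ) : ℝ := √(RR ^ 2 - t ^ 2) ^ 3

theorem continuous_cu : Continuous cu := by
  unfold cu; fun_prop

theorem integral_cu : ∫ t in (-RR)..RR, cu t = 3 * Real.pi * RR ^ 4 / 8 := by
  have h1 : ∫ x in (0 : ℝ)..Real.pi, (cu ∘ fun θ : ℝ => -RR * Real.cos θ) x * (RR * Real.sin x) =
      ∫ u in (-RR * Real.cos 0)..(-RR * Real.cos Real.pi), cu u := by
    apply intervalIntegral.integral_comp_mul_deriv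
    · intro x _
      have h := (Real.hasDerivAt_cos x).const_mul (-RR)
      have e : -RR * -Real.sin x = RR * Real.sin x := by ring
      rw [e] at h
      exact h
    · exact (continuous_const.mul Real.continuous_sin).continuousOn
    · exact continuous_cu
  rw [Real.cos_zero, Real.cos_pi] at h1
  have e1 : -RR * 1 = -RR := by ring
  have e2 : -RR * -1 = RR := by ring
  rw [e1, e2] at h1
  rw [← h1]
  have h2 : ∀ x ∈ uIcc (0 : ℝ) Real.pi,
      (cu ∘ fun θ : ℝ => -RR * Real.cos θ) x * (RR * Real.sin x) =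
        RR ^ 4 * Real.sin x ^ (2 * 2) := by
    intro x hx
    rw [uIcc_of_le Real.pi_pos.le] at hx
    have hs : 0 ≤ Real.sin x := Real.sin_nonneg_of_nonneg_of_le_pi hx.1 hx.2
    have h3 : √(RR ^ 2 - (-RR * Real.cos x) ^ 2) = RR * Real.sin x := by
      have h4 : RR ^ 2 - (-RR * Real.cos x) ^ 2 = (RR * Real.sin x) ^ 2 := by
        have := Real.sin_sq_add_cos_sq x
        have h5 : Real.cos x ^ 2 = 1 - Real.sin x ^ 2 := by linarith
        calc RR ^ 2 - (-RR * Real.cos x) ^ 2 = RR ^ 2 - RR ^ 2 * Real.cos x ^ 2 := by ring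
          _ = (RR * Real.sin x) ^ 2 := by rw [h5]; ring
      rw [h4, Real.sqrt_sq (mul_nonneg RR_pos.le hs)]
    simp only [Function.comp_apply, cu]
    rw [h3]
    ring
  rw [intervalIntegral.integral_congr h2, intervalIntegral.integral_const_mul,
    integral_sin_pow_even]
  simp only [Finset.prod_range_succ, Finset.prod_range_zero]
  norm_num
  ring

/-- the polynomial upper bound of `cu` on `[-h, h]` -/
noncomputable def Qp (t : ℝ) : ℝ :=
  RR ^ 3 * (1 - 3 / 2 * (t ^ 2 / RR ^ 2) + 3 / 8 * (t ^ 2 / RR ^ 2) ^ 2 +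
    2 / 25 * (t ^ 2 / RR ^ 2) ^ 3)

theorem poly_bound {x : ℝ} (h0 : 0 ≤ x) (h1 : x ≤ 3 / 10) :
    (1 - x) ^ 3 ≤ (1 - 3 / 2 * x + 3 / 8 * x ^ 2 + 2 / 25 * x ^ 3) ^ 2 := by
  have e : (1 - 3 / 2 * x + 3 / 8 * x ^ 2 + 2 / 25 * x ^ 3) ^ 2 - (1 - x) ^ 3 =
      x ^ 3 * (7 / 200 + (9 / 64 - 6 / 25) * x + 3 / 50 * x ^ 2 + 4 / 625 * x ^ 3) := by ring
  have h2 : 0 ≤ 7 / 200 + (9 / 64 - 6 / 25) * x + 3 / 50 * x ^ 2 + 4 / 625 * x ^ 3 := by
    have : 0 ≤ x ^ 2 := by positivity
    have : 0 ≤ x ^ 3 := by positivity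
    nlinarith
  have h3 : 0 ≤ x ^ 3 * (7 / 200 + (9 / 64 - 6 / 25) * x + 3 / 50 * x ^ 2 + 4 / 625 * x ^ 3) :=
    mul_nonneg (by positivity) h2
  linarith

theorem cu_le {t : ℝ} (ht : |t| ≤ hh) : cu t ≤ Qp t := by
  have ht2 : t ^ 2 ≤ hh ^ 2 := by
    rw [← sq_abs t]
    exact pow_le_pow_left₀ (abs_nonneg t) ht 2
  have hR := RR_pos
  set x := t ^ 2 / RR ^ 2 with hx
  have hx0 : 0 ≤ x := by positivity
  have hx1 : x ≤ 3 / 10 := by
    rw [hx, div_le_iff₀ (by positivity)]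
    refine ht2.trans ?_
    unfold hh RR
    norm_num
  have e1 : RR ^ 2 - t ^ 2 = RR ^ 2 * (1 - x) := by
    rw [hx]; field_simp
  have h1x : 0 ≤ 1 - x := by linarith
  have e2 : √(RR ^ 2 - t ^ 2) = RR * √(1 - x) := by
    rw [e1, Real.sqrt_mul (by positivity), Real.sqrt_sq hR.le]
  unfold cu Qp
  rw [e2, mul_pow, ← hx]
  refine mul_le_mul_of_nonneg_left ?_ (by positivity)
  have hq : 0 ≤ 1 - 3 / 2 * x + 3 / 8 * x ^ 2 + 2 / 25 * x ^ 3 := by
    have : 0 ≤ x ^ 2 := by positivity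
    have : 0 ≤ x ^ 3 := by positivity
    nlinarith
  refine le_of_sq_le_sq ?_ hq
  have e3 : (√(1 - x) ^ 3) ^ 2 = (1 - x) ^ 3 := by
    rw [← pow_mul, mul_comm 3 2, pow_mul, Real.sq_sqrt h1x]
  rw [e3]
  exact poly_bound hx0 hx1

theorem continuous_Qp : Continuous Qp := by
  unfold Qp; fun_prop

/-- an antiderivative of `Qp - 1` -/
noncomputable def Qa (t : ℝ) : ℝ :=
  RR ^ 3 * (t - 1 / 2 * (t ^ 3 / RR ^ 2) + 3 / 40 * (t ^ 5 / RR ^ 4) +
    2 / 175 * (t ^ 7 / RR ^ 6)) - t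

theorem hasDerivAt_Qa (t : ℝ) : HasDerivAt Qa (Qp t - 1) t := by
  have hR := RR_pos.ne'
  have h1 : HasDerivAt (fun t : ℝ => t ^ 3) (3 * t ^ 2) t := by
    simpa using hasDerivAt_pow 3 t
  have h2 : HasDerivAt (fun t : ℝ => t ^ 5) (5 * t ^ 4) t := by
    simpa using hasDerivAt_pow 5 t
  have h3 : HasDerivAt (fun t : ℝ => t ^ 7) (7 * t ^ 6) t := by
    simpa using hasDerivAt_pow 7 t
  have h4 := (((((hasDerivAt_id t).sub ((h1.div_const (RR ^ 2)).const_mul (1 / 2))).add
    ((h2.div_const (RR ^ 4)).const_mul (3 / 40))).add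
    ((h3.div_const (RR ^ 6)).const_mul (2 / 175))).const_mul (RR ^ 3)).sub (hasDerivAt_id t)
  refine h4.congr_deriv ?_
  unfold Qp
  field_simp
  ring

theorem integral_Qp : ∫ t in (-hh)..hh, (Qp t - 1) = 2 * Qa hh := by
  rw [intervalIntegral.integral_eq_sub_of_hasDerivAt (fun t _ => hasDerivAt_Qa t)
    ((continuous_Qp.sub continuous_const).intervalIntegrable _ _)]
  have : Qa (-hh) = -Qa hh := by unfold Qa; ring
  rw [this]; ring

theorem num_upper : 3 * Real.pi * RR ^ 4 / 8 ≤ 2 * RR := by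
  have := Real.pi_lt_d4
  have e : (0 : ℝ) ≤ 3 * RR ^ 4 / 8 := by have := RR_pos; positivity
  have h1 := mul_le_mul_of_nonneg_right this.le e
  have h2 : 3.1416 * (3 * RR ^ 4 / 8) ≤ 2 * RR := by unfold RR; norm_num
  linarith

theorem num_lower : 3 / 2 * RR ≤ 3 * Real.pi * RR ^ 4 / 8 - 2 * Qa hh := by
  have := Real.pi_gt_d4
  have e : (0 : ℝ) ≤ 3 * RR ^ 4 / 8 := by have := RR_pos; positivity
  have h1 := mul_le_mul_of_nonneg_right this.le e
  have h2 : 3 / 2 * RR + 2 * Qa hh ≤ 3.1415 * (3 * RR ^ 4 / 8) := by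
    unfold Qa RR hh; norm_num
  linarith

variable {W : ℝ → ℝ}

/-- The upper estimate. -/
theorem upper_est (hS : Sc 3 fun x => W (x ^ 2))
    (hint : Integrable fun t : ℝ => W (RR ^ 2 - t ^ 2)) :
    ∫ t in (-RR)..RR, W (RR ^ 2 - t ^ 2) ≤ 2 * RR * W 1 := by
  obtain ⟨m, hm, hsup⟩ := support hS
  have hR := RR_pos
  have h1 : ∫ t in (-RR)..RR, W (RR ^ 2 - t ^ 2) ≤
      ∫ t in (-RR)..RR, (W 1 + m * (cu t - 1)) := by
    apply intervalIntegral.integral_mono_on (by linarith) hint.intervalIntegrable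
    · exact (continuous_const.add (continuous_const.mul
        (continuous_cu.sub continuous_const))).intervalIntegrable _ _
    · intro t ht
      have ht2 : 0 ≤ RR ^ 2 - t ^ 2 := by nlinarith [ht.1, ht.2]
      have h2 := hsup (√(RR ^ 2 - t ^ 2)) (Real.sqrt_nonneg _)
      simp only [Real.sq_sqrt ht2, one_pow] at h2
      exact h2
  have h3 : ∫ t in (-RR)..RR, (W 1 + m * (cu t - 1)) =
      2 * RR * W 1 + m * (3 * Real.pi * RR ^ 4 / 8 - 2 * RR) := by
    have e1 : (fun t : ℝ => W 1 + m * (cu t - 1)) = fun t => (W 1 - m) + m * cu t := by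
      funext t; ring
    have hE : IntervalIntegrable (fun t : ℝ => m * cu t) volume (-RR) RR :=
      (continuous_const.mul continuous_cu).intervalIntegrable _ _
    have hE' : IntervalIntegrable (fun _ : ℝ => W 1 - m) volume (-RR) RR :=
      continuous_const.intervalIntegrable _ _
    rw [e1, intervalIntegral.integral_add hE' hE,
      intervalIntegral.integral_const, intervalIntegral.integral_const_mul, integral_cu]
    simp only [smul_eq_mul]
    ring
  rw [h3] at h1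
  have h4 := num_upper
  have h5 : m * (3 * Real.pi * RR ^ 4 / 8 - 2 * RR) ≤ 0 :=
    mul_nonpos_of_nonneg_of_nonpos hm (by linarith)
  linarith

/-- The lower estimate. -/
theorem lower_est (hW : Monotone W) (hW0 : W 0 = 0) (hS : Sc 3 fun x => W (x ^ 2))
    (hint : Integrable fun t : ℝ => W (RR ^ 2 - t ^ 2)) :
    3 / 2 * RR * W 1 ≤ ∫ t in (-RR)..RR, W (RR ^ 2 - t ^ 2) := by
  have hR := RR_pos
  have hh0 := hh_pos
  have hlt := hh_lt
  have hW1 : 0 ≤ W 1 := by
    have := hW (zero_le_one : (0 : ℝ) ≤ 1)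
    linarith
  have hI : ∀ a b : ℝ, IntervalIntegrable (fun t : ℝ => W (RR ^ 2 - t ^ 2)) volume a b :=
    fun a b => hint.intervalIntegrable
  have hC : ∀ a b : ℝ, IntervalIntegrable (fun t : ℝ => cu t * W 1) volume a b :=
    fun a b => (continuous_cu.mul continuous_const).intervalIntegrable _ _
  have out : ∀ t : ℝ, |t| ≤ RR → hh ≤ |t| → cu t * W 1 ≤ W (RR ^ 2 - t ^ 2) := by
    intro t ht1 ht2
    have e1 : t ^ 2 = |t| ^ 2 := (sq_abs t).symm
    have h1 : 0 ≤ RR ^ 2 - t ^ 2 := by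
      rw [e1]; nlinarith [abs_nonneg t]
    have h2 : RR ^ 2 - t ^ 2 ≤ 1 := by
      have := RR_sq
      rw [e1]; nlinarith [abs_nonneg t]
    have h3 : √(RR ^ 2 - t ^ 2) ≤ 1 := by
      rw [Real.sqrt_le_one]; exact h2
    have h4 := lower hS (by simpa using hW0) (Real.sqrt_nonneg (RR ^ 2 - t ^ 2)) h3
    simp only [Real.sq_sqrt h1, one_pow] at h4
    exact h4
  have inn : ∀ t : ℝ, |t| ≤ hh → cu t * W 1 - (Qp t - 1) * W 1 ≤ W (RR ^ 2 - t ^ 2) := by
    intro t ht
    have e1 : t ^ 2 = |t| ^ 2 := (sq_abs t).symm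
    have h1 : 1 ≤ RR ^ 2 - t ^ 2 := by
      have := RR_sq
      rw [e1]; nlinarith [abs_nonneg t]
    have h2 := hW h1
    have h3 := cu_le ht
    nlinarith
  have s1 : ∫ t in (-RR)..(-hh), cu t * W 1 ≤ ∫ t in (-RR)..(-hh), W (RR ^ 2 - t ^ 2) := by
    apply intervalIntegral.integral_mono_on (by linarith) (hC _ _) (hI _ _)
    intro t ht
    have h0 : |t| = -t := abs_of_nonpos (by linarith [ht.2])
    exact out t (by rw [h0]; linarith [ht.1]) (by rw [h0]; linarith [ht.2])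
  have s3 : ∫ t in hh..RR, cu t * W 1 ≤ ∫ t in hh..RR, W (RR ^ 2 - t ^ 2) := by
    apply intervalIntegral.integral_mono_on (by linarith) (hC _ _) (hI _ _)
    intro t ht
    have h0 : |t| = t := abs_of_nonneg (by linarith [ht.1])
    exact out t (by rw [h0]; exact ht.2) (by rw [h0]; exact ht.1)
  have s2 : ∫ t in (-hh)..hh, (cu t * W 1 - (Qp t - 1) * W 1) ≤
      ∫ t in (-hh)..hh, W (RR ^ 2 - t ^ 2) := by
    apply intervalIntegral.integral_mono_on (by linarith)
      ((hC _ _).sub (((continuous_Qp.sub continuous_const).mul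
        continuous_const).intervalIntegrable _ _)) (hI _ _)
    intro t ht
    exact inn t (abs_le.mpr ⟨ht.1, ht.2⟩)
  have hD : IntervalIntegrable (fun t : ℝ => (Qp t - 1) * W 1) volume (-hh) hh :=
    ((continuous_Qp.sub continuous_const).mul continuous_const).intervalIntegrable _ _
  have hD2 : ∫ t in (-hh)..hh, (Qp t - 1) * W 1 = 2 * Qa hh * W 1 := by
    rw [intervalIntegral.integral_mul_const, integral_Qp]
  rw [intervalIntegral.integral_sub (hC _ _) hD, hD2] at s2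
  have c1 := intervalIntegral.integral_add_adjacent_intervals (hC (-RR) (-hh)) (hC (-hh) hh)
  have c2 := intervalIntegral.integral_add_adjacent_intervals (hC (-RR) hh) (hC hh RR)
  have d1 := intervalIntegral.integral_add_adjacent_intervals (hI (-RR) (-hh)) (hI (-hh) hh)
  have d2 := intervalIntegral.integral_add_adjacent_intervals (hI (-RR) hh) (hI hh RR)
  have c3 : ∫ t in (-RR)..RR, cu t * W 1 = 3 * Real.pi * RR ^ 4 / 8 * W 1 := by
    rw [intervalIntegral.integral_mul_const, integral_cu]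
  have hn := mul_le_mul_of_nonneg_right num_lower hW1
  linarith

end Pool.Agent.KneserThree
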